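import Mathlib
import Pool.Agent.Lib.MP_037dd7_al.Main

set_option autoImplicit false

namespace Pool.Agent.Results.MP_037dd7_al.IntegralRanks

open Module

/-- right self-distributivity -/
def IsShelf {X : Type} (op : X → X → X) : Prop :=
  ∀ a b c : X, op (op a b) c = op (op a c) (op b c)

/-- the face map `d^i` on the basis: `d^i (x_0, ..., x_m)` is
`(x_0 * x_i, ..., x_{i-1} * x_i, x_{i+1}, ..., x_m)` -/
def face {X : Type} (op : X → X → X) {m : ℕ} (i : Fin (m + 1)) (x : Fin (m + 1) → X) :
    Fin m → X :=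
  fun j => if Fin.castSucc j < i then op (x (i.succAbove j)) (x i) else x (i.succAbove j)

/-- the boundary `∂_m : C_m → C_{m-1}`, where `C_m` is the free abelian group on `X^{m+1}`,
here the functions of finite support from `Fin (m + 1) → X` to the integers -/
noncomputable def boundary {X : Type} (op : X → X → X) (m : ℕ) :
    ((Fin (m + 1) → X) →₀ ℤ) →ₗ[ℤ] ((Fin m → X) →₀ ℤ) :=
  ∑ i : Fin (m + 1), ((-1 : ℤ) ^ (i : ℕ)) • Finsupp.lmapDomain ℤ ℤ (face op i)

/-- the homology group `H_n(X) = ker ∂_n / im ∂_{n+1}` -/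
abbrev Homology {X : Type} (op : X → X → X) (n : ℕ) : Type :=
  ↥(LinearMap.ker (boundary op n)) ⧸
    (LinearMap.range (boundary op (n + 1))).submoduleOf (LinearMap.ker (boundary op n))

/-- the rank of `H_n(X)`, the dimension over the rationals of `ℚ ⊗ H_n(X)` -/
noncomputable def rk {X : Type} (op : X → X → X) (n : ℕ) : ℕ :=
  finrank ℚ (TensorProduct ℤ ℚ (Homology op n))

/-- coefficientwise inclusion of the integral chains in the rational ones -/
noncomputable def incl (ι : Type) : (ι →₀ ℤ) →ₗ[ℤ] (ι →₀ ℚ) :=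
  Finsupp.mapRange.linearMap (Algebra.linearMap ℤ ℚ)

lemma incl_single {ι : Type} (x : ι) (c : ℤ) :
    incl ι (Finsupp.single x c) = Finsupp.single x (c : ℚ) := by
  simp [incl]

lemma incl_injective (ι : Type) : Function.Injective (incl ι) := by
  intro u v h
  ext x
  have := DFunLike.congr_fun h x
  simpa [incl] using this

open Pool.Agent.Lib.MP_037dd7_al in
lemma incl_boundary (m : ℕ) (u : (Fin (m + 1) → Fin 6) →₀ ℤ) :
    incl _ (boundary op m u) = bd m (incl _ u) := by
  have h : (incl _).comp (boundary op m) = ((bd m).restrictScalars ℤ).comp (incl _) := by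
    apply Finsupp.lhom_ext
    intro x c
    simp only [LinearMap.comp_apply, LinearMap.restrictScalars_apply, incl_single]
    rw [boundary, bd, LinearMap.sum_apply, LinearMap.sum_apply, map_sum]
    refine Finset.sum_congr rfl fun i _ => ?_
    rw [LinearMap.smul_apply, LinearMap.smul_apply, Finsupp.lmapDomain_apply,
      Finsupp.lmapDomain_apply, Finsupp.mapDomain_single, Finsupp.mapDomain_single, map_smul,
      incl_single, Finsupp.smul_single, Finsupp.smul_single]
    have hf : face op i x = Pool.Agent.Lib.MP_037dd7_al.face i x := rfl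
    rw [hf]
    congr 1
    simp
  exact LinearMap.congr_fun h u

open Pool.Agent.Lib.MP_037dd7_al in
lemma boundary_boundary (m : ℕ) (w : (Fin (m + 2) → Fin 6) →₀ ℤ) :
    boundary op m (boundary op (m + 1) w) = 0 := by
  apply incl_injective
  rw [incl_boundary, incl_boundary, bd_bd, map_zero]

open Pool.Agent.Lib.MP_037dd7_al in
lemma finrank_ker_le (m : ℕ) : finrank ℤ (LinearMap.ker (boundary op m)) ≤
    finrank ℚ (LinearMap.ker (bd m)) := by
  have h1 : Module.rank ℚ (LinearMap.ker (bd m)) = Module.rank ℤ (LinearMap.ker (bd m)) :=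
    IsFractionRing.rank_right_eq ℤ ℚ (LinearMap.ker (bd m))
  have hf : ∀ u : LinearMap.ker (boundary op m), incl _ (u : (Fin (m + 1) → Fin 6) →₀ ℤ) ∈
      (LinearMap.ker (bd m)).restrictScalars ℤ := by
    intro u
    change bd m (incl _ _) = 0
    rw [← incl_boundary, LinearMap.mem_ker.mp u.2, map_zero]
  let f : LinearMap.ker (boundary op m) →ₗ[ℤ] (LinearMap.ker (bd m)).restrictScalars ℤ :=
    ((incl _).comp (LinearMap.ker (boundary op m)).subtype).codRestrict _ hf
  have h2 : Module.rank ℤ (LinearMap.ker (boundary op m)) ≤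
      Module.rank ℤ ((LinearMap.ker (bd m)).restrictScalars ℤ) := by
    refine LinearMap.rank_le_of_injective f ?_
    intro u v h
    have := congrArg Subtype.val h
    exact Subtype.ext (incl_injective _ this)
  have h3 : Module.rank ℤ (LinearMap.ker (boundary op m)) ≤ Module.rank ℚ (LinearMap.ker (bd m)) := by
    rw [h1]; exact h2
  exact Cardinal.toNat_le_toNat h3 (rank_lt_aleph0 ℚ _)

open Pool.Agent.Lib.MP_037dd7_al in
lemma finrank_range_le (m : ℕ) : finrank ℤ (LinearMap.range (boundary op m)) ≤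
    finrank ℚ (LinearMap.range (bd m)) := by
  have h1 : Module.rank ℚ (LinearMap.range (bd m)) = Module.rank ℤ (LinearMap.range (bd m)) :=
    IsFractionRing.rank_right_eq ℤ ℚ (LinearMap.range (bd m))
  have hf : ∀ u : LinearMap.range (boundary op m), incl _ (u : (Fin m → Fin 6) →₀ ℤ) ∈
      (LinearMap.range (bd m)).restrictScalars ℤ := by
    rintro ⟨u, v, rfl⟩
    exact ⟨incl _ v, (incl_boundary m v).symm⟩
  let f : LinearMap.range (boundary op m) →ₗ[ℤ] (LinearMap.range (bd m)).restrictScalars ℤ :=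
    ((incl _).comp (LinearMap.range (boundary op m)).subtype).codRestrict _ hf
  have h2 : Module.rank ℤ (LinearMap.range (boundary op m)) ≤
      Module.rank ℤ ((LinearMap.range (bd m)).restrictScalars ℤ) := by
    refine LinearMap.rank_le_of_injective f ?_
    intro u v h
    have := congrArg Subtype.val h
    exact Subtype.ext (incl_injective _ this)
  have h3 : Module.rank ℤ (LinearMap.range (boundary op m)) ≤
      Module.rank ℚ (LinearMap.range (bd m)) := by
    rw [h1]; exact h2
  exact Cardinal.toNat_le_toNat h3 (rank_lt_aleph0 ℚ _)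

open Pool.Agent.Lib.MP_037dd7_al in
lemma finrank_both (m : ℕ) :
    finrank ℤ (LinearMap.ker (boundary op m)) = finrank ℚ (LinearMap.ker (bd m)) ∧
    finrank ℤ (LinearMap.range (boundary op m)) = finrank ℚ (LinearMap.range (bd m)) := by
  have h1 := finrank_ker_le m
  have h2 := finrank_range_le m
  have h3 := Submodule.finrank_quotient_add_finrank (LinearMap.ker (boundary op m))
  rw [(LinearMap.quotKerEquivRange (boundary op m)).finrank_eq] at h3
  have h4 := LinearMap.finrank_range_add_finrank_ker (bd m)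
  have h5 : finrank ℤ ((Fin (m + 1) → Y) →₀ ℤ) = finrank ℚ (U (m + 1)) := by
    rw [Module.finrank_finsupp_self, Module.finrank_finsupp_self]
  omega

open Pool.Agent.Lib.MP_037dd7_al in
lemma rk_eq (n : ℕ) : rk op n =
    finrank ℚ (LinearMap.ker (bd n)) - finrank ℚ (LinearMap.range (bd (n + 1))) := by
  have hle : LinearMap.range (boundary op (n + 1)) ≤ LinearMap.ker (boundary op n) := by
    rintro _ ⟨v, rfl⟩
    exact boundary_boundary n v
  have h1 : rk op n = finrank ℤ (Homology op n) := by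
    have e1 : finrank ℚ (TensorProduct ℤ ℚ (Homology op n)) =
        finrank ℤ (TensorProduct ℤ ℚ (Homology op n)) :=
      IsFractionRing.finrank_right_eq ℤ ℚ _
    have : IsLocalizedModule (nonZeroDivisors ℤ) (TensorProduct.mk ℤ ℚ (Homology op n) 1) :=
      (isLocalizedModule_iff_isBaseChange (nonZeroDivisors ℤ) ℚ _).mpr
        (TensorProduct.isBaseChange ℤ (Homology op n) ℚ)
    have e2 : finrank ℤ (TensorProduct ℤ ℚ (Homology op n)) = finrank ℤ (Homology op n) :=
      @IsLocalizedModule.finrank_eq ℤ (Homology op n) (TensorProduct ℤ ℚ (Homology op n)) _ _ _ _ _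
        (nonZeroDivisors ℤ) (TensorProduct.mk ℤ ℚ (Homology op n) 1) this le_rfl
    rw [rk, e1, e2]
  have h2 := Submodule.finrank_quotient_add_finrank
    ((LinearMap.range (boundary op (n + 1))).submoduleOf (LinearMap.ker (boundary op n)))
  have h3 : finrank ℤ ((LinearMap.range (boundary op (n + 1))).submoduleOf
      (LinearMap.ker (boundary op n))) = finrank ℤ (LinearMap.range (boundary op (n + 1))) :=
    (Submodule.submoduleOfEquivOfLe hle).finrank_eq
  have h4 := (finrank_both n).1
  have h5 := (finrank_both (n + 1)).2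
  rw [h1]
  change finrank ℤ (Homology op n) + _ = _ at h2
  omega

open Pool.Agent.Lib.MP_037dd7_al in
lemma finrank_A (n : ℕ) :
    7 * (Module.finrank ℚ (A n) : ℤ) = 6 ^ (n + 2) - (-1) ^ n := by
  induction n with
  | zero => rw [finrank_A_zero]; norm_num
  | succ n ih =>
    have h : (Module.finrank ℚ (A (n + 1)) : ℤ) + (Module.finrank ℚ (A n) : ℤ) = 6 ^ (n + 2) := by
      exact_mod_cast finrank_A_succ n
    have h1 : ((-1 : ℤ)) ^ (n + 1) = -(-1) ^ n := by rw [pow_succ]; ring
    have h2 : (6 : ℤ) ^ (n + 1 + 2) = 6 * 6 ^ (n + 2) := by rw [show n + 1 + 2 = (n + 2) + 1 from rfl, pow_succ]; ring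
    rw [h1, h2]
    linarith

open Pool.Agent.Lib.MP_037dd7_al in
/-- the ranks of the homology of the six element spindle -/
lemma rk_formula (n : ℕ) : 7 * (rk op (n + 1) : ℤ) = 8 * 6 ^ (n + 1) - (-1) ^ (n + 1) := by
  have h := finrank_homology n
  have hle : Module.finrank ℚ (LinearMap.range (bd (n + 2))) ≤ Module.finrank ℚ (LinearMap.ker (bd (n + 1))) := by
    refine Submodule.finrank_mono ?_
    rintro _ ⟨v, rfl⟩
    exact bd_bd v
  have h1 : (rk op (n + 1) : ℤ) + 4 * 6 ^ (n + 1) = (Module.finrank ℚ (A (n + 1)) : ℤ) := by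
    rw [rk_eq]
    push_cast [Nat.cast_sub hle]
    have h2 : (Module.finrank ℚ (LinearMap.ker (bd (n + 1))) : ℤ) + 4 * 6 ^ (n + 1) =
        (Module.finrank ℚ (LinearMap.range (bd (n + 2))) : ℤ) + (Module.finrank ℚ (A (n + 1)) : ℤ) := by
      exact_mod_cast h
    linarith
  have h3 := finrank_A (n + 1)
  have h4 : (6 : ℤ) ^ (n + 1 + 2) = 36 * 6 ^ (n + 1) := by rw [pow_add]; ring
  rw [h4] at h3
  linarith

/-- The rank growth conjecture fails, in every degree: there is a spindle `X` with six elements such that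
`rk H_{n+1}(X) = |X| rk H_n(X) + (-1)^n` for every `n ≥ 1`; in particular
`rk H_{n+1}(X) ≠ |X| rk H_n(X)` for every `n ≥ |X| - 2 = 4`. -/
theorem result : ∃ (X : Type) (_ : Fintype X) (op : X → X → X), IsShelf op ∧ (∀ x, op x x = x) ∧
    Fintype.card X = 6 ∧
    ∀ n : ℕ, 1 ≤ n → (rk op (n + 1) : ℤ) = (Fintype.card X : ℤ) * (rk op n : ℤ) + (-1) ^ n := by
  refine ⟨Fin 6, inferInstance, Pool.Agent.Lib.MP_037dd7_al.op,
    Pool.Agent.Lib.MP_037dd7_al.op_dist, Pool.Agent.Lib.MP_037dd7_al.op_idem, Fintype.card_fin 6, ?_⟩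
  intro n hn
  obtain ⟨m, rfl⟩ : ∃ m, n = m + 1 := ⟨n - 1, by omega⟩
  have h1 := rk_formula m
  have h2 := rk_formula (m + 1)
  rw [Fintype.card_fin]
  have h3 : (6 : ℤ) ^ (m + 1 + 1) = 6 * 6 ^ (m + 1) := by rw [pow_succ]; ring
  have h4 : ((-1 : ℤ)) ^ (m + 1 + 1) = -(-1) ^ (m + 1) := by rw [pow_succ]; ring
  rw [h3, h4] at h2
  push_cast
  linarith

end Pool.Agent.Results.MP_037dd7_al.IntegralRanks
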